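import Pool.Agent.Results.MP_4f6efa_gt.TExtralMetrizable
import Pool.Agent.Y66.TX.Basic

/-!
Totally disconnected t-embedded subspaces of t-extral compact spaces are metrizable; in particular
no product of a Cantor cube of uncountable weight with a compact space is t-extral.
-/

set_option autoImplicit false

open Set Topology unitInterval
open Pool.Agent.H151 Pool.Agent.Y66.TX

namespace Pool.Agent.Results.MP_4f6efa_gt.TEmbeddedSubspaces

universe u

/-- (1) If `Y` is a t-extral compact Hausdorff space, then every totally disconnected compact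
subspace `S` of `Y` that is t-embedded in `Y` is metrizable. (2) If a compact Hausdorff space `Y`
has a retract that is homeomorphic to `D ^ κ` for an uncountable `κ`, then `Y` is not t-extral; for
instance `D ^ κ × Z` is not t-extral, for any nonempty compact Hausdorff space `Z`. (3) `D ^ κ` is
not t-extral, and every totally disconnected t-extral compact Hausdorff space is metrizable. -/
theorem result :
    (∀ (Y : Type u) [TopologicalSpace Y] [CompactSpace Y] [T2Space Y], TExtral Y →
      ∀ S : Set Y, IsCompact S → TotallyDisconnectedSpace S → TEmbedded S →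
        TopologicalSpace.MetrizableSpace S) ∧
    (∀ (κ : Type u) [Uncountable κ] (Y : Type u) [TopologicalSpace Y] [CompactSpace Y] [T2Space Y]
      (e : (κ → Bool) → Y) (r : Y → κ → Bool), Continuous e → Continuous r →
        (∀ x, r (e x) = x) → ¬ TExtral Y) ∧
    (∀ (κ : Type u) [Uncountable κ] (Z : Type u) [TopologicalSpace Z] [CompactSpace Z]
      [T2Space Z] [Nonempty Z], ¬ TExtral ((κ → Bool) × Z)) ∧
    (∀ (κ : Type u) [Uncountable κ], ¬ TExtral (κ → Bool)) ∧
    (∀ (K : Type u) [TopologicalSpace K] [CompactSpace K] [T2Space K]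
      [TotallyDisconnectedSpace K], TExtral K → TopologicalSpace.MetrizableSpace K) := by
  have h1 : ∀ (Y : Type u) [TopologicalSpace Y] [CompactSpace Y] [T2Space Y], TExtral Y →
      ∀ S : Set Y, IsCompact S → TotallyDisconnectedSpace S → TEmbedded S →
        TopologicalSpace.MetrizableSpace S := by
    intro Y _ _ _ hY S hS hd h
    have : CompactSpace S := isCompact_iff_compactSpace.1 hS
    exact metrizable_of_extral hY IsEmbedding.subtypeVal (temb_val h)
  have h2 : ∀ (κ : Type u) [Uncountable κ] (Y : Type u) [TopologicalSpace Y] [CompactSpace Y]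
      [T2Space Y] (e : (κ → Bool) → Y) (r : Y → κ → Bool), Continuous e → Continuous r →
        (∀ x, r (e x) = x) → ¬ TExtral Y := by
    intro κ _ Y _ _ _ e r he hr hre hY
    have hinj : Function.Injective e := fun x y hxy => by rw [← hre x, hxy, hre y]
    obtain ⟨lam, j, hj⟩ := exists_cube Y
    have hemb : IsEmbedding e := (he.isClosedEmbedding hinj).isEmbedding
    have h3 : TEmb (j ∘ e) := (temb_of_range hj.isEmbedding (hY _ j hj)).comp
      (TEmb.of_retraction r hr hre)
    exact cantor_uncountable κ (countable_of_temb_range (j ∘ e) (hj.isEmbedding.comp hemb)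
      (range_of_temb (hj.isEmbedding.comp hemb) h3))
  refine ⟨h1, h2, ?_, TExtralMetrizable.result.2, TExtralMetrizable.result.1⟩
  intro κ _ Z _ _ _ _
  obtain ⟨z⟩ := ‹Nonempty Z›
  exact h2 κ _ (fun x => (x, z)) Prod.fst (by fun_prop) continuous_fst fun _ => rfl

end Pool.Agent.Results.MP_4f6efa_gt.TEmbeddedSubspaces
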